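import Mathlib

/-!
Two elementary lemmas: orientation of positive planes in signature `(2,2)`, and coprime residues.
-/

namespace Pool.Agent.K3Ell

/-- the form `-(r s' + s r' - y w' - w y')` (minus the polarised determinant) -/
def q4 (r y w s r' y' w' s' : ℤ) : ℤ := y * w' + w * y' - r * s' - s * r'

/-- sum of two positive definite binary forms -/
theorem pd_sum (a b m a' b' m' : ℤ) (ha : 0 < a) (ha' : 0 < a') (h : m ^ 2 < 4 * (a * b))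
    (h' : m' ^ 2 < 4 * (a' * b')) : (m + m') ^ 2 < 4 * ((a + a') * (b + b')) := by
  have hab : 0 < a * b := by nlinarith [sq_nonneg m]
  have hab' : 0 < a' * b' := by nlinarith [sq_nonneg m']
  have hb : 0 < b := (mul_pos_iff_of_pos_left ha).mp hab
  have hb' : 0 < b' := (mul_pos_iff_of_pos_left ha').mp hab'
  have h1 : (m * m') ^ 2 < (2 * (a * b' + a' * b)) ^ 2 := by
    have e1 : (m * m') ^ 2 ≤ (4 * (a * b)) * (4 * (a' * b')) := by
      rw [mul_pow]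
      exact mul_le_mul h.le h'.le (sq_nonneg _) (by positivity)
    have e2 : 0 ≤ (a * b' - a' * b) ^ 2 := sq_nonneg _
    have e3 : (m * m') ^ 2 < (4 * (a * b)) * (4 * (a' * b')) := by
      rw [mul_pow]
      calc m ^ 2 * m' ^ 2 ≤ m ^ 2 * (4 * (a' * b')) := mul_le_mul_of_nonneg_left h'.le (sq_nonneg _)
        _ < (4 * (a * b)) * (4 * (a' * b')) := mul_lt_mul_of_pos_right h (by positivity)
    nlinarith
  have h2 : |m * m'| < |2 * (a * b' + a' * b)| := sq_lt_sq.mp h1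
  have h3 : 0 < 2 * (a * b' + a' * b) := by positivity
  rw [abs_of_pos h3] at h2
  have h4 := (abs_lt.mp h2).2
  nlinarith

/-- a bilinear form whose symmetrisation is positive definite has positive determinant -/
theorem det_pos_of_sym (p s x y : ℤ) (h : (x + y) ^ 2 < 4 * (p * s)) : 0 < p * s - x * y := by
  nlinarith [sq_nonneg (x - y)]

/-- key inequality in normal form -/
theorem key_nf (D D' w1 s1 w2 s2 w1' s1' w2' s2' : ℤ)
    (hD : D ≠ 0) (hD' : D' ≠ 0)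
    (h1 : 0 < -(D * s1)) (h2 : (D * (w1 - s2)) ^ 2 < 4 * (-(D * s1) * (D * w2)))
    (h1' : 0 < -(D' * s1')) (h2' : (D' * (w1' - s2')) ^ 2 < 4 * (-(D' * s1') * (D' * w2'))) :
    0 < (-(D * s1') - D' * s1) * (D * w2' + D' * w2) -
      (D' * w1 - D * s2') * (D * w1' - D' * s2) := by
  have hd : 0 < D ^ 2 := by positivity
  have hd' : 0 < D' ^ 2 := by positivity
  have h3 := pd_sum (D' ^ 2 * -(D * s1)) (D' ^ 2 * (D * w2)) (D' ^ 2 * (D * (w1 - s2)))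
    (D ^ 2 * -(D' * s1')) (D ^ 2 * (D' * w2')) (D ^ 2 * (D' * (w1' - s2')))
    (mul_pos hd' h1) (mul_pos hd h1')
    (by
      have : 0 < (D' ^ 2) ^ 2 * (4 * (-(D * s1) * (D * w2)) - (D * (w1 - s2)) ^ 2) := by
        apply mul_pos (by positivity); linarith
      linarith [this])
    (by
      have : 0 < (D ^ 2) ^ 2 * (4 * (-(D' * s1') * (D' * w2')) - (D' * (w1' - s2')) ^ 2) := by
        apply mul_pos (by positivity); linarith
      linarith [this])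
  have h4 := det_pos_of_sym (D' ^ 2 * -(D * s1) + D ^ 2 * -(D' * s1'))
    (D' ^ 2 * (D * w2) + D ^ 2 * (D' * w2')) (D * D' * (D' * w1 - D * s2'))
    (D * D' * (D * w1' - D' * s2)) (by
      refine lt_of_eq_of_lt ?_ h3
      ring)
  have h5 : (D' ^ 2 * -(D * s1) + D ^ 2 * -(D' * s1')) *
      (D' ^ 2 * (D * w2) + D ^ 2 * (D' * w2')) - (D * D' * (D' * w1 - D * s2')) *
    (D * D' * (D * w1' - D' * s2)) = (D * D') ^ 2 *
      ((-(D * s1') - D' * s1) * (D * w2' + D' * w2) -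
      (D' * w1 - D * s2') * (D * w1' - D' * s2)) := by ring
  rw [h5] at h4
  exact (mul_pos_iff_of_pos_left (by positivity)).mp h4

/-- the Gram determinant of a pair is positive and so is the first norm -/
def PD (r1 y1 w1 s1 r2 y2 w2 s2 : ℤ) : Prop :=
  0 < q4 r1 y1 w1 s1 r1 y1 w1 s1 ∧
  q4 r1 y1 w1 s1 r2 y2 w2 s2 ^ 2 <
    q4 r1 y1 w1 s1 r1 y1 w1 s1 * q4 r2 y2 w2 s2 r2 y2 w2 s2

theorem PD.delta_ne {r1 y1 w1 s1 r2 y2 w2 s2 : ℤ} (h : PD r1 y1 w1 s1 r2 y2 w2 s2) :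
    r1 * y2 - r2 * y1 ≠ 0 := by
  intro h0
  obtain ⟨h1, h2⟩ := h
  have key : y2 ^ 2 * q4 r1 y1 w1 s1 r1 y1 w1 s1 - 2 * y1 * y2 * q4 r1 y1 w1 s1 r2 y2 w2 s2
      + y1 ^ 2 * q4 r2 y2 w2 s2 r2 y2 w2 s2 = 0 := by
    simp only [q4]
    linear_combination (-2 * y2 * s1 + 2 * y1 * s2) * h0
  have key2 : r2 ^ 2 * q4 r1 y1 w1 s1 r1 y1 w1 s1 - 2 * r1 * r2 * q4 r1 y1 w1 s1 r2 y2 w2 s2
      + r1 ^ 2 * q4 r2 y2 w2 s2 r2 y2 w2 s2 = 0 := by
    simp only [q4]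
    linear_combination (-2 * r2 * w1 + 2 * r1 * w2) * h0
  obtain ⟨A, hA⟩ : ∃ A, A = q4 r1 y1 w1 s1 r1 y1 w1 s1 := ⟨_, rfl⟩
  obtain ⟨C, hC⟩ : ∃ C, C = q4 r2 y2 w2 s2 r2 y2 w2 s2 := ⟨_, rfl⟩
  obtain ⟨X, hX⟩ : ∃ X, X = q4 r1 y1 w1 s1 r2 y2 w2 s2 := ⟨_, rfl⟩
  rw [← hA, ← hC, ← hX] at key key2
  rw [← hA] at h1
  rw [← hA, ← hC, ← hX] at h2
  have e1 : (A * y2 - X * y1) ^ 2 + (A * C - X ^ 2) * y1 ^ 2 = 0 := by
    linear_combination A * key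
  have e2 : (A * r2 - X * r1) ^ 2 + (A * C - X ^ 2) * r1 ^ 2 = 0 := by
    linear_combination A * key2
  have f1 : y1 = 0 := by
    by_contra hy
    have : 0 < (A * C - X ^ 2) * y1 ^ 2 := mul_pos (by linarith) (by positivity)
    nlinarith [sq_nonneg (A * y2 - X * y1)]
  have f2 : r1 = 0 := by
    by_contra hy
    have : 0 < (A * C - X ^ 2) * r1 ^ 2 := mul_pos (by linarith) (by positivity)
    nlinarith [sq_nonneg (A * r2 - X * r1)]
  rw [hA, f1, f2] at h1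
  simp [q4] at h1

/-- orientation of positive pairs is detected by the isotropic plane `r = y = 0` -/
theorem key (r1 y1 w1 s1 r2 y2 w2 s2 r1' y1' w1' s1' r2' y2' w2' s2' : ℤ)
    (h : PD r1 y1 w1 s1 r2 y2 w2 s2) (h' : PD r1' y1' w1' s1' r2' y2' w2' s2') :
    0 < (r1 * y2 - r2 * y1) * (r1' * y2' - r2' * y1') *
      (q4 r1 y1 w1 s1 r1' y1' w1' s1' * q4 r2 y2 w2 s2 r2' y2' w2' s2' -
        q4 r1 y1 w1 s1 r2' y2' w2' s2' * q4 r2 y2 w2 s2 r1' y1' w1' s1') := by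
  have hD := h.delta_ne
  have hD' := h'.delta_ne
  obtain ⟨g1, g2⟩ := h
  obtain ⟨g1', g2'⟩ := h'
  obtain ⟨D, hDe⟩ : ∃ D, D = r1 * y2 - r2 * y1 := ⟨_, rfl⟩
  obtain ⟨D', hDe'⟩ : ∃ D', D' = r1' * y2' - r2' * y1' := ⟨_, rfl⟩
  have P : ∀ r1 y1 w1 s1 r2 y2 w2 s2 : ℤ, 0 < q4 r1 y1 w1 s1 r1 y1 w1 s1 →
      q4 r1 y1 w1 s1 r2 y2 w2 s2 ^ 2 <
        q4 r1 y1 w1 s1 r1 y1 w1 s1 * q4 r2 y2 w2 s2 r2 y2 w2 s2 →
      r1 * y2 - r2 * y1 ≠ 0 →
      0 < -((r1 * y2 - r2 * y1) * (y2 * s1 - y1 * s2)) ∧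
      ((r1 * y2 - r2 * y1) * ((y2 * w1 - y1 * w2) - (r1 * s2 - r2 * s1))) ^ 2 <
        4 * (-((r1 * y2 - r2 * y1) * (y2 * s1 - y1 * s2)) *
          ((r1 * y2 - r2 * y1) * (r1 * w2 - r2 * w1))) := by
    intro r1 y1 w1 s1 r2 y2 w2 s2 g1 g2 hD
    obtain ⟨A, hA⟩ : ∃ A, A = q4 r1 y1 w1 s1 r1 y1 w1 s1 := ⟨_, rfl⟩
    obtain ⟨C, hC⟩ : ∃ C, C = q4 r2 y2 w2 s2 r2 y2 w2 s2 := ⟨_, rfl⟩
    obtain ⟨X, hX⟩ : ∃ X, X = q4 r1 y1 w1 s1 r2 y2 w2 s2 := ⟨_, rfl⟩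
    rw [← hA] at g1
    rw [← hA, ← hC, ← hX] at g2
    have a1 : -2 * ((r1 * y2 - r2 * y1) * (y2 * s1 - y1 * s2)) =
        y2 ^ 2 * A - 2 * y1 * y2 * X + y1 ^ 2 * C := by
      rw [hA, hC, hX]; simp only [q4]; ring
    have a2 : 2 * ((r1 * y2 - r2 * y1) * (r1 * w2 - r2 * w1)) =
        r2 ^ 2 * A - 2 * r1 * r2 * X + r1 ^ 2 * C := by
      rw [hA, hC, hX]; simp only [q4]; ring
    have a3 : (r1 * y2 - r2 * y1) * ((y2 * w1 - y1 * w2) - (r1 * s2 - r2 * s1)) =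
        -(y2 * r2 * A) + (r1 * y2 + r2 * y1) * X - y1 * r1 * C := by
      rw [hA, hC, hX]; simp only [q4]; ring
    have pos : 0 < A * C - X ^ 2 := by linarith
    constructor
    · have b1 : 0 < A * (y2 ^ 2 * A - 2 * y1 * y2 * X + y1 ^ 2 * C) := by
        have : A * (y2 ^ 2 * A - 2 * y1 * y2 * X + y1 ^ 2 * C) =
          (A * y2 - X * y1) ^ 2 + (A * C - X ^ 2) * y1 ^ 2 := by ring
        rw [this]
        by_cases hy : y1 = 0
        · have hy2 : y2 ≠ 0 := by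
            rintro rfl
            apply hD
            rw [hy]; ring
          rw [hy]
          have : 0 < (A * y2) ^ 2 := by positivity
          linarith
        · have : 0 < (A * C - X ^ 2) * y1 ^ 2 := mul_pos pos (by positivity)
          nlinarith [sq_nonneg (A * y2 - X * y1)]
      have b2 := (mul_pos_iff_of_pos_left g1).mp b1
      linarith
    · have c1 : (4 : ℤ) * (-((r1 * y2 - r2 * y1) * (y2 * s1 - y1 * s2)) *
          ((r1 * y2 - r2 * y1) * (r1 * w2 - r2 * w1))) =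
          (y2 ^ 2 * A - 2 * y1 * y2 * X + y1 ^ 2 * C) *
          (r2 ^ 2 * A - 2 * r1 * r2 * X + r1 ^ 2 * C) := by
        rw [← a1, ← a2]; ring
      rw [c1, a3]
      have c2 : (y2 ^ 2 * A - 2 * y1 * y2 * X + y1 ^ 2 * C) *
          (r2 ^ 2 * A - 2 * r1 * r2 * X + r1 ^ 2 * C) -
          (-(y2 * r2 * A) + (r1 * y2 + r2 * y1) * X - y1 * r1 * C) ^ 2 =
          (r1 * y2 - r2 * y1) ^ 2 * (A * C - X ^ 2) := by ring
      have c3 : 0 < (r1 * y2 - r2 * y1) ^ 2 * (A * C - X ^ 2) := mul_pos (by positivity) pos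
      linarith
  have p := P _ _ _ _ _ _ _ _ g1 g2 hD
  have p' := P _ _ _ _ _ _ _ _ g1' g2' hD'
  rw [← hDe] at p hD
  rw [← hDe'] at p' hD'
  have nf := key_nf D D' (y2 * w1 - y1 * w2) (y2 * s1 - y1 * s2) (r1 * w2 - r2 * w1)
    (r1 * s2 - r2 * s1) (y2' * w1' - y1' * w2') (y2' * s1' - y1' * s2') (r1' * w2' - r2' * w1')
    (r1' * s2' - r2' * s1') hD hD' p.1 p.2 p'.1 p'.2
  refine lt_of_lt_of_eq nf ?_
  rw [hDe, hDe']
  simp only [q4]
  ring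

/-- a residue coprime to `n` in the class of `a` modulo `m` -/
theorem exists_coprime_add (a m n : ℤ) (hn : n ≠ 0) (h : IsCoprime a m) :
    ∃ t : ℤ, IsCoprime (a + t * m) n := by
  classical
  obtain ⟨S, hS⟩ : ∃ S : Finset ℕ, S = n.natAbs.primeFactors.filter
    (fun p : ℕ => ¬ ((p : ℤ) ∣ a)) := ⟨_, rfl⟩
  obtain ⟨t, ht⟩ : ∃ t : ℤ, t = ∏ p ∈ S, (p : ℤ) := ⟨_, rfl⟩
  refine ⟨t, ?_⟩
  rw [Int.isCoprime_iff_gcd_eq_one, Int.gcd_eq_natAbs]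
  by_contra hg
  obtain ⟨p, hp, hpd⟩ := Nat.exists_prime_and_dvd hg
  have h1 : (p : ℤ) ∣ a + t * m := Int.natCast_dvd.mpr (hpd.trans (Nat.gcd_dvd_left _ _))
  have h2 : p ∣ n.natAbs := hpd.trans (Nat.gcd_dvd_right _ _)
  have hpm : p ∈ n.natAbs.primeFactors :=
    Nat.mem_primeFactors.mpr ⟨hp, h2, Int.natAbs_ne_zero.mpr hn⟩
  have hpp : Prime (p : ℤ) := Nat.prime_iff_prime_int.mp hp
  by_cases hpa : (p : ℤ) ∣ a
  · have h3 : (p : ℤ) ∣ t * m := (dvd_add_right hpa).mp h1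
    rcases hpp.dvd_or_dvd h3 with h4 | h4
    · rw [ht] at h4
      obtain ⟨r, hr, hpr⟩ := (Prime.dvd_finsetProd_iff hpp _).mp h4
      rw [hS, Finset.mem_filter] at hr
      have hrp := (Nat.mem_primeFactors.mp hr.1).1
      have : p = r := (Nat.prime_dvd_prime_iff_eq hp hrp).mp (Int.natCast_dvd_natCast.mp hpr)
      rw [← this] at hr
      exact hr.2 hpa
    · exact hpp.not_isUnit (h.isUnit_of_dvd' hpa h4)
  · have h3 : (p : ℤ) ∣ t := by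
      rw [ht]
      exact Finset.dvd_prod_of_mem (fun p : ℕ => (p : ℤ))
        (by rw [hS]; exact Finset.mem_filter.mpr ⟨hpm, hpa⟩)
    exact hpa ((dvd_add_left (h3.mul_right m)).mp h1)

end Pool.Agent.K3Ell
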