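import Pool.Agent.K3Ell.Main

/-!
The main theorem for Picard rank two with an isotropic class.
-/

set_option linter.unusedSimpArgs false

namespace Pool.Agent.K3Ell

variable {Λ : Type*} [AddCommGroup Λ]

theorem exists_coprime_rel (u v : ℤ) : ∃ a b : ℤ, IsCoprime a b ∧ a * u + b * v = 0 := by
  by_cases h : Int.gcd u v = 0
  · rw [Int.gcd_eq_zero_iff] at h
    exact ⟨1, 0, isCoprime_one_left, by rw [h.1, h.2]; ring⟩
  · obtain ⟨g, u', v', hg, h1, h2, h3⟩ := Int.exists_gcd_one' (Nat.pos_of_ne_zero h)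
    refine ⟨v', -u', ?_, ?_⟩
    · exact (Int.isCoprime_iff_gcd_eq_one.mpr h1).symm.neg_right
    · rw [h2, h3]; ring

/-- left kernel of a singular matrix -/
theorem exists_left (r y w s : ℤ) (h : r * s = y * w) :
    ∃ a b : ℤ, IsCoprime a b ∧ a * r + b * w = 0 ∧ a * y + b * s = 0 := by
  by_cases h0 : r = 0 ∧ w = 0
  · obtain ⟨a, b, hab, h1⟩ := exists_coprime_rel y s
    exact ⟨a, b, hab, by rw [h0.1, h0.2]; ring, h1⟩
  · obtain ⟨a, b, hab, h1⟩ := exists_coprime_rel r w
    refine ⟨a, b, hab, h1, ?_⟩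
    have h2 : (a * y + b * s) * r = 0 := by linear_combination y * h1 + b * h
    have h3 : (a * y + b * s) * w = 0 := by linear_combination s * h1 - a * h
    rcases mul_eq_zero.mp h2 with h4 | h4
    · exact h4
    · rcases mul_eq_zero.mp h3 with h5 | h5
      · exact h5
      · exact absurd ⟨h4, h5⟩ h0

/-- two orthogonal singular matrices have a common left or a common right kernel -/
theorem dich (r y w s r' y' w' s' : ℤ) (h : r * s = y * w) (h' : r' * s' = y' * w')
    (ho : y * w' + w * y' - r * s' - s * r' = 0) (hne : ¬ (r = 0 ∧ y = 0 ∧ w = 0 ∧ s = 0)) :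
    (∃ a b : ℤ, IsCoprime a b ∧ (a * r + b * w = 0 ∧ a * y + b * s = 0) ∧
      (a * r' + b * w' = 0 ∧ a * y' + b * s' = 0)) ∨
    (∃ a b : ℤ, IsCoprime a b ∧ (a * r + b * y = 0 ∧ a * w + b * s = 0) ∧
      (a * r' + b * y' = 0 ∧ a * w' + b * s' = 0)) := by
  obtain ⟨a, b, hab, h1, h2⟩ := exists_left r y w s h
  obtain ⟨p, q, hpq, h3, h4⟩ := exists_left r w y s (by rw [h]; ring)
  obtain ⟨T, hT⟩ : ∃ T, T = a * p * r' + b * p * w' + a * q * y' + b * q * s' := ⟨_, rfl⟩
  have t1 : r * T = 0 := by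
    rw [hT]
    linear_combination (-b * q) * ho + (p * r' + q * y') * h1 + (b * w') * h3
      - (b * r') * h4
  have t2 : y * T = 0 := by
    rw [hT]
    linear_combination (b * p) * ho + (p * r' + q * y') * h2 - (b * y') * h4 + (b * s') * h3
  have t3 : w * T = 0 := by
    rw [hT]
    linear_combination (a * q) * ho + (p * w' + q * s') * h1 - (a * w') * h3 + (a * r') * h4
  have t4 : s * T = 0 := by
    rw [hT]
    linear_combination (-a * p) * ho + (p * w' + q * s') * h2 + (a * y') * h4 - (a * s') * h3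
  have hT0 : T = 0 := by
    by_contra hne2
    apply hne
    refine ⟨?_, ?_, ?_, ?_⟩
    · exact (mul_eq_zero.mp t1).resolve_right hne2
    · exact (mul_eq_zero.mp t2).resolve_right hne2
    · exact (mul_eq_zero.mp t3).resolve_right hne2
    · exact (mul_eq_zero.mp t4).resolve_right hne2
  rw [hT0] at hT
  have x11 : (a * r' + b * w') * (p * r' + q * y') = 0 := by
    linear_combination (-r') * hT - (b * q) * h'
  have x12 : (a * r' + b * w') * (p * w' + q * s') = 0 := by
    linear_combination (-w') * hT + (a * q) * h'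
  have x21 : (a * y' + b * s') * (p * r' + q * y') = 0 := by
    linear_combination (-y') * hT + (b * p) * h'
  have x22 : (a * y' + b * s') * (p * w' + q * s') = 0 := by
    linear_combination (-s') * hT - (a * p) * h'
  by_cases hx : a * r' + b * w' = 0 ∧ a * y' + b * s' = 0
  · left
    exact ⟨a, b, hab, ⟨h1, h2⟩, hx⟩
  · right
    refine ⟨p, q, hpq, ⟨h3, h4⟩, ?_, ?_⟩
    · by_contra hc
      exact hx ⟨(mul_eq_zero.mp x11).resolve_right hc, (mul_eq_zero.mp x21).resolve_right hc⟩
    · by_contra hc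
      exact hx ⟨(mul_eq_zero.mp x12).resolve_right hc, (mul_eq_zero.mp x22).resolve_right hc⟩

section
variable {B : LinearMap.BilinForm ℤ Λ} {e f F D x₀ y₀ : Λ} {n k : ℤ}

theorem Sit.inS_e (S : Sit B e f F D x₀ y₀ n k) : InS B e f F D x₀ y₀ e := by
  have h : e = ph e f F D 1 0 0 0 := by simp [ph]
  have := S.inS_ph 1 0 0 0
  rwa [← h] at this

theorem Sit.inS_f (S : Sit B e f F D x₀ y₀ n k) : InS B e f F D x₀ y₀ f := by
  have h : f = ph e f F D 0 0 0 1 := by simp [ph]
  have := S.inS_ph 0 0 0 1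
  rwa [← h] at this

theorem Sit.inS_F (S : Sit B e f F D x₀ y₀ n k) : InS B e f F D x₀ y₀ F := by
  have h : F = ph e f F D 0 1 0 0 := by simp [ph]
  have := S.inS_ph 0 1 0 0
  rwa [← h] at this

theorem Sit.inS_D (S : Sit B e f F D x₀ y₀ n k) : InS B e f F D x₀ y₀ D := by
  have h : D = ph e f F D 0 0 1 0 := by simp [ph]
  have := S.inS_ph 0 0 1 0
  rwa [← h] at this

theorem Sit.F_ne (S : Sit B e f F D x₀ y₀ n k) : F ≠ 0 := by
  rintro rfl
  have := S.Fx
  simp at this

/-- an orientation preserving isometry which maps the plane `⟨f, F⟩` to itself is relative -/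
theorem Sit.fin (S : Sit B e f F D x₀ y₀ n k) {t : Λ ≃ₗ[ℤ] Λ} (ht : Good B e f F D t)
    {a b : Λ} (ha : InS B e f F D x₀ y₀ a) (hb : InS B e f F D x₀ y₀ b)
    (hor : 0 < Del B f y₀ (t a) (t b) * Del B f y₀ a b)
    (c s c' s' : ℤ) (h1 : t f = ph e f F D 0 c 0 s) (h2 : t F = ph e f F D 0 c' 0 s') :
    IsRel B e f F D t := by
  have hfa : ∀ v, B f v = c * B F (t v) + s * B f (t v) := by
    intro v
    rw [← ht.1 f v, h1, ph_pr]; ring
  have hFa : ∀ v, B F v = c' * B F (t v) + s' * B f (t v) := by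
    intro v
    rw [← ht.1 F v, h2, ph_pr]; ring
  obtain ⟨ε, hε⟩ : ∃ ε, ε = s * c' - c * s' := ⟨_, rfl⟩
  have hn := S.npos
  have key : ∀ v w, InS B e f F D x₀ y₀ v → InS B e f F D x₀ y₀ w →
      Del B f y₀ v w = ε * Del B f y₀ (t v) (t w) := by
    intro v w hv hw
    have e1 := hfa v
    have e2 := hfa w
    have e3 := hFa v
    have e4 := hFa w
    have i1 := S.F_S hv
    have i2 := S.F_S hw
    have i3 := S.F_S (S.good_inS ht hv)
    have i4 := S.F_S (S.good_inS ht hw)
    have : n * (Del B f y₀ v w - ε * Del B f y₀ (t v) (t w)) = 0 := by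
      have e5 : B f v * B F w - B f w * B F v = ε * (B f (t v) * B F (t w) -
          B f (t w) * B F (t v)) := by
        rw [e1, e2, e3, e4, hε]; ring
      rw [i1, i2, i3, i4] at e5
      simp only [Del]
      linear_combination (-1) * e5
    rcases mul_eq_zero.mp this with h | h
    · omega
    · linarith
  have hpos : 0 < ε := by
    rw [key a b ha hb] at hor
    have h3 : Del B f y₀ (t a) (t b) * (ε * Del B f y₀ (t a) (t b)) =
      ε * Del B f y₀ (t a) (t b) ^ 2 := by ring
    rw [h3] at hor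
    by_contra hc
    push Not at hc
    nlinarith [mul_nonneg (neg_nonneg.mpr hc) (sq_nonneg (Del B f y₀ (t a) (t b)))]
  have hone : ε = 1 := by
    have h3 := key e D S.inS_e S.inS_D
    have h4 : Del B f y₀ e D = 1 := by
      simp only [Del, S.fe, S.yD, S.fD]; ring
    rw [h4] at h3
    exact Int.eq_one_of_dvd_one hpos.le ⟨_, h3⟩
  rw [hε] at hone
  refine ⟨ht, F, Submodule.subset_span (by simp), S.F_ne, S.FF, s, c, s', c', ?_, ?_, ?_⟩
  · linear_combination hone
  · rw [h1]; simp [ph]; abel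
  · rw [h2]; simp [ph]; abel

theorem Sit.main_left (S : Sit B e f F D x₀ y₀ n k) {g : Λ ≃ₗ[ℤ] Λ} (hg : Good B e f F D g)
    {p q : Λ} (hp : InS B e f F D x₀ y₀ p) (hq : InS B e f F D x₀ y₀ q) (hpq : PDΛ B p q)
    (hor : 0 < Del B f y₀ (g p) (g q) * Del B f y₀ p q)
    (r c y s r' c' y' s' : ℤ) (h1 : g f = ph e f F D r c y s)
    (h2 : g F = F + n • ph e f F D r' c' y' s')
    (a b : ℤ) (hab : IsCoprime a b) (k1 : a * r + b * (n * c + k * y) = 0)
    (k2 : a * y + b * s = 0) (k3 : a * r' + b * (1 + (n * c' + k * y')) = 0)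
    (k4 : a * y' + b * s' = 0) : g ∈ Subgroup.closure (gens B e f F D) := by
  have hn := S.npos
  have hex : ∃ u v w : ℤ, u * a + v * n + w * k = 1 := by
    obtain ⟨α, β, hαβ⟩ := hab
    exact ⟨α - β * r', -β * b * c', -β * b * y', by linear_combination hαβ - β * k3⟩
  obtain ⟨h, hh, H⟩ := S.tr a b hab hex
  have hhG := S.closure_good hh
  obtain ⟨r1, c1, y1, s1, e1, e2, e3⟩ := H r c y s k1 k2
  have h2' : g F = ph e f F D (n * r') (1 + n * c') (n * y') (n * s') := by
    rw [h2]; simp only [ph, smul_add, mul_smul, add_smul, one_smul]; abel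
  obtain ⟨r2, c2, y2, s2, e4, e5, e6⟩ := H (n * r') (1 + n * c') (n * y') (n * s')
    (by linear_combination n * k3) (by linear_combination n * k4)
  have hr1 : r1 = 0 := by linarith
  have hy1 : y1 = 0 := by linarith
  have hr2 : r2 = 0 := by linarith
  have hy2 : y2 = 0 := by linarith
  subst hr1 hy1 hr2 hy2
  have ht : Good B e f F D (h * g) := hhG.1.mul hg
  have hor2 : 0 < Del B f y₀ ((h * g) p) ((h * g) q) * Del B f y₀ p q :=
    sign_trans (hhG.2 _ _ (S.good_inS hg hp) (S.good_inS hg hq) (hg.pd hpq)) hor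
  have hrel := S.fin ht hp hq hor2 c1 s1 c2 s2
    (by rw [LinearEquiv.mul_apply, h1, e1]) (by rw [LinearEquiv.mul_apply, h2', e4])
  have : g = h⁻¹ * (h * g) := by group
  rw [this]
  exact Subgroup.mul_mem _ (Subgroup.inv_mem _ hh) (Subgroup.subset_closure (Or.inr hrel))

theorem exists_coord {v : Λ}
    (hv : InS B e f F D x₀ y₀ v) : ∃ r c y s, v = ph e f F D r c y s := ⟨_, _, _, _, hv⟩

theorem Sit.main (S : Sit B e f F D x₀ y₀ n k) {g : Λ ≃ₗ[ℤ] Λ} (hg : Good B e f F D g)
    {p q : Λ} (hp : InS B e f F D x₀ y₀ p) (hq : InS B e f F D x₀ y₀ q) (hpq : PDΛ B p q)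
    (hor : 0 < Del B f y₀ (g p) (g q) * Del B f y₀ p q) :
    g ∈ Subgroup.closure (gens B e f F D) := by
  have hn := S.npos
  have hn0 : n ≠ 0 := by omega
  obtain ⟨r, c, y, s, h1⟩ := exists_coord (S.good_inS hg S.inS_f)
  obtain ⟨r', c', y', s', h2⟩ := S.good_F hg
  have h2' : g F = ph e f F D (n * r') (1 + n * c') (n * y') (n * s') := by
    rw [h2]; simp only [ph, smul_add, mul_smul, add_smul, one_smul]; abel
  have q1 : r * s = y * (n * c + k * y) := by
    have := hg.1 f f
    rw [S.ff, h1, S.pr] at this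
    simp only [q4] at this
    linarith
  have q2 : r' * s' = y' * (1 + (n * c' + k * y')) := by
    have := hg.1 F F
    rw [S.FF, h2', S.pr] at this
    simp only [q4] at this
    have h4 : (2 : ℤ) * ((n * n) * (r' * s' - y' * (1 + (n * c' + k * y')))) = 0 := by
      linear_combination (-1) * this
    have h5 : (n * n) * (r' * s' - y' * (1 + (n * c' + k * y'))) = 0 := by linarith
    rcases mul_eq_zero.mp h5 with h6 | h6
    · rcases mul_eq_zero.mp h6 with h7 | h7 <;> exact absurd h7 hn0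
    · linarith
  have q3 : y * (1 + (n * c' + k * y')) + (n * c + k * y) * y' - r * s' - s * r' = 0 := by
    have := hg.1 f F
    rw [S.fF, h1, h2', S.pr] at this
    simp only [q4] at this
    have h5 : n * (y * (1 + (n * c' + k * y')) + (n * c + k * y) * y' - r * s' - s * r') = 0 := by
      linear_combination this
    exact (mul_eq_zero.mp h5).resolve_left hn0
  have q4' : ¬ (r = 0 ∧ y = 0 ∧ n * c + k * y = 0 ∧ s = 0) := by
    rintro ⟨rfl, rfl, h5, rfl⟩
    have hc : n * c = 0 := by linarith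
    have hc0 : c = 0 := (mul_eq_zero.mp hc).resolve_left hn0
    subst hc0
    have := hg.1 f e
    rw [S.fe, h1, ph_zero, map_zero, LinearMap.zero_apply] at this
    omega
  rcases dich r y (n * c + k * y) s r' y' (1 + (n * c' + k * y')) s' q1 q2 q3 q4' with
    ⟨a, b, hab, ⟨k1, k2⟩, k3, k4⟩ | ⟨a, b, hab, ⟨k1, k2⟩, k3, k4⟩
  · exact S.main_left hg hp hq hpq hor r c y s r' c' y' s' h1 h2 a b hab k1 k2 k3 k4
  · obtain ⟨w, hw, Hw⟩ := S.exists_s
    have hwG := S.closure_good hw
    have ht : Good B e f F D (w * g) := hwG.1.mul hg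
    have hor2 : 0 < Del B f y₀ ((w * g) p) ((w * g) q) * Del B f y₀ p q :=
      sign_trans (hwG.2 _ _ (S.good_inS hg hp) (S.good_inS hg hq) (hg.pd hpq)) hor
    have g1 : (w * g) f = ph e f F D (-s) c y (-r) := by
      rw [LinearEquiv.mul_apply, h1, Hw]
    have g2 : (w * g) F = F + n • ph e f F D (-s') c' y' (-r') := by
      rw [LinearEquiv.mul_apply, h2', Hw]
      simp only [ph, smul_add, mul_smul, add_smul, one_smul, neg_smul, smul_neg]; abel
    have := S.main_left ht hp hq hpq hor2 (-s) c y (-r) (-s') c' y' (-r') g1 g2 b (-a)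
      hab.symm.neg_right (by linear_combination (-1) * k2) (by linear_combination k1)
      (by linear_combination (-1) * k4) (by linear_combination k3)
    have h5 : g = w⁻¹ * (w * g) := by group
    rw [h5]
    exact Subgroup.mul_mem _ (Subgroup.inv_mem _ hw) this

/-- orientation in terms of the projection determinant -/
theorem Sit.or_iff (S : Sit B e f F D x₀ y₀ n k) {g : Λ ≃ₗ[ℤ] Λ} (hg : Good B e f F D g)
    {p q : Λ} (hp : InS B e f F D x₀ y₀ p) (hq : InS B e f F D x₀ y₀ q) (hpq : PDΛ B p q) :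
    0 < B (g p) p * B (g q) q - B (g p) q * B (g q) p ↔
      0 < Del B f y₀ (g p) (g q) * Del B f y₀ p q := by
  have h := S.key (S.good_inS hg hp) (S.good_inS hg hq) hp hq (hg.pd hpq) hpq
  constructor
  · intro h1
    exact (mul_pos_iff_of_pos_right h1).mp h
  · intro h1
    exact (mul_pos_iff_of_pos_left h1).mp h

theorem Sit.result (S : Sit B e f F D x₀ y₀ n k) (α β : ℤ)
    (hpos : 0 < B (α • F + β • D) (α • F + β • D)) (g : Λ ≃ₗ[ℤ] Λ) :
    (Good B e f F D g ∧ 0 < B (g (e - f)) (e - f) * B (g (α • F + β • D)) (α • F + β • D) -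
      B (g (e - f)) (α • F + β • D) * B (g (α • F + β • D)) (e - f)) ↔
    g ∈ Subgroup.closure (gens B e f F D) := by
  have hp : InS B e f F D x₀ y₀ (e - f) := by
    have h : e - f = ph e f F D 1 0 0 (-1) := by simp [ph, sub_eq_add_neg]
    rw [h]; exact S.inS_ph _ _ _ _
  have hq : InS B e f F D x₀ y₀ (α • F + β • D) := by
    have h : α • F + β • D = ph e f F D 0 α β 0 := by simp [ph]
    rw [h]; exact S.inS_ph _ _ _ _
  have hpq : PDΛ B (e - f) (α • F + β • D) := by
    have e1 : B (e - f) (e - f) = 2 := by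
      simp only [map_sub, LinearMap.sub_apply, S.ee, S.ff, S.ef, S.fe]; ring
    have e2 : B (e - f) (α • F + β • D) = 0 := by
      simp only [map_add, map_sub, map_smul, LinearMap.sub_apply, smul_eq_mul, S.eF, S.eD, S.fF,
        S.fD]; ring
    refine ⟨by rw [e1]; norm_num, ?_⟩
    rw [e1, e2]
    linarith
  constructor
  · rintro ⟨hg, h⟩
    exact S.main hg hp hq hpq ((S.or_iff hg hp hq hpq).mp h)
  · intro hg
    have h := S.closure_good hg
    exact ⟨h.1, (S.or_iff h.1 hp hq hpq).mpr (h.2 _ _ hp hq hpq)⟩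

end

end Pool.Agent.K3Ell
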