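import Pool.Agent.K3Ell.Lattice

/-!
The generators: reflections and isometries which preserve an isotropic plane through `f`.
-/

set_option linter.unusedSimpArgs false

namespace Pool.Agent.K3Ell

variable {Λ : Type*} [AddCommGroup Λ]

/-- reflection in a `(-2)`-vector -/
def IsRefl (B : LinearMap.BilinForm ℤ Λ) (e f F D : Λ) (g : Λ ≃ₗ[ℤ] Λ) : Prop :=
  ∃ δ ∈ Submodule.span ℤ {e, f, F, D}, B δ δ = -2 ∧ ∀ x, g x = x + B x δ • δ

/-- relative isometry -/
def IsRel (B : LinearMap.BilinForm ℤ Λ) (e f F D : Λ) (g : Λ ≃ₗ[ℤ] Λ) : Prop :=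
  Good B e f F D g ∧ ∃ G ∈ Submodule.span ℤ {F, D}, G ≠ 0 ∧ B G G = 0 ∧
    ∃ a b c d : ℤ, a * d - b * c = 1 ∧ g f = a • f + b • G ∧ g G = c • f + d • G

/-- the generating set -/
def gens (B : LinearMap.BilinForm ℤ Λ) (e f F D : Λ) : Set (Λ ≃ₗ[ℤ] Λ) :=
  {g | IsRefl B e f F D g ∨ IsRel B e f F D g}

theorem mem_span4 (e f F D δ : Λ) :
    δ ∈ Submodule.span ℤ {e, f, F, D} ↔ ∃ r c y s, δ = ph e f F D r c y s := by
  constructor
  · intro h
    rw [Submodule.mem_span_insert] at h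
    obtain ⟨r, z, hz, rfl⟩ := h
    rw [Submodule.mem_span_insert] at hz
    obtain ⟨s, z2, hz2, rfl⟩ := hz
    rw [Submodule.mem_span_pair] at hz2
    obtain ⟨c, y, rfl⟩ := hz2
    exact ⟨r, c, y, s, by simp only [ph]; abel⟩
  · rintro ⟨r, c, y, s, rfl⟩
    refine Submodule.add_mem _ (Submodule.add_mem _ (Submodule.add_mem _ ?_ ?_) ?_) ?_ <;>
      exact Submodule.smul_mem _ _ (Submodule.subset_span (by simp))

theorem mem_span2 (e f F D G : Λ) :
    G ∈ Submodule.span ℤ {F, D} ↔ ∃ c y, G = ph e f F D 0 c y 0 := by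
  rw [Submodule.mem_span_pair]
  constructor
  · rintro ⟨c, y, rfl⟩
    exact ⟨c, y, by simp [ph]⟩
  · rintro ⟨c, y, rfl⟩
    exact ⟨c, y, by simp [ph]⟩

section
variable {B : LinearMap.BilinForm ℤ Λ} {e f F D x₀ y₀ : Λ} {n k : ℤ}

/-- preserves the orientation of positive pairs -/
def Ori (B : LinearMap.BilinForm ℤ Λ) (e f F D x₀ y₀ : Λ) (g : Λ ≃ₗ[ℤ] Λ) : Prop :=
  ∀ a b, InS B e f F D x₀ y₀ a → InS B e f F D x₀ y₀ b → PDΛ B a b →
    0 < Del B f y₀ (g a) (g b) * Del B f y₀ a b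

theorem Sit.F_S (S : Sit B e f F D x₀ y₀ n k) {a : Λ} (ha : InS B e f F D x₀ y₀ a) :
    B F a = n * B y₀ a := by
  have h : a = ph e f F D (-B f a) (B x₀ a) (B y₀ a) (-B e a) := ha
  conv_lhs => rw [h]
  rw [S.F_ph]

theorem Sit.D_S (S : Sit B e f F D x₀ y₀ n k) {a : Λ} (ha : InS B e f F D x₀ y₀ a) :
    B D a = n * B x₀ a + 2 * k * B y₀ a := by
  have h : a = ph e f F D (-B f a) (B x₀ a) (B y₀ a) (-B e a) := ha
  conv_lhs => rw [h]
  rw [S.D_ph]

theorem Good.pd {g : Λ ≃ₗ[ℤ] Λ} (hg : Good B e f F D g) {a b : Λ} (h : PDΛ B a b) :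
    PDΛ B (g a) (g b) := by
  unfold PDΛ
  rw [hg.1, hg.1, hg.1]
  exact h

theorem sign_trans {x y z : ℤ} (h : 0 < x * y) (h' : 0 < y * z) : 0 < x * z := by
  have h1 : 0 < (x * z) * y ^ 2 := by
    have := mul_pos h h'
    nlinarith
  have h2 : y ≠ 0 := by rintro rfl; simp at h
  exact (mul_pos_iff_of_pos_right (by positivity)).mp h1

/-- a good isometry moving positive pairs to positive pairs with positive mutual determinant
preserves the orientation -/
theorem Sit.ori_of_det (S : Sit B e f F D x₀ y₀ n k) {g : Λ ≃ₗ[ℤ] Λ} (hg : Good B e f F D g)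
    (h : ∀ a b, InS B e f F D x₀ y₀ a → InS B e f F D x₀ y₀ b → PDΛ B a b →
      0 < B (g a) a * B (g b) b - B (g a) b * B (g b) a) : Ori B e f F D x₀ y₀ g := by
  intro a b ha hb hab
  have h1 := S.key (S.good_inS hg ha) (S.good_inS hg hb) ha hb (hg.pd hab) hab
  exact (mul_pos_iff_of_pos_right (h a b ha hb hab)).mp h1

theorem Sit.refl_good (S : Sit B e f F D x₀ y₀ n k) {g : Λ ≃ₗ[ℤ] Λ} (hg : IsRefl B e f F D g) :
    Good B e f F D g ∧ Ori B e f F D x₀ y₀ g := by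
  obtain ⟨δ, hδ, hδ2, hgx⟩ := hg
  obtain ⟨r, c, y, s, rfl⟩ := (mem_span4 e f F D δ).mp hδ
  have hG : Good B e f F D g := by
    refine ⟨fun x z => ?_, fun t ht => ?_⟩
    · rw [hgx, hgx]
      simp only [map_add, LinearMap.add_apply, map_smul, LinearMap.smul_apply, smul_eq_mul, hδ2]
      rw [S.symm (ph e f F D r c y s) z]
      ring
    · rw [hgx, S.symm t, ph_pr, ht.1, ht.2.1, ht.2.2.1, ht.2.2.2]
      simp
  refine ⟨hG, S.ori_of_det hG fun a b ha hb hab => ?_⟩
  rw [hgx, hgx]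
  obtain ⟨δ, hd⟩ : ∃ δ, δ = ph e f F D r c y s := ⟨_, rfl⟩
  rw [← hd]
  simp only [map_add, LinearMap.add_apply, map_smul, LinearMap.smul_apply, smul_eq_mul]
  obtain ⟨h1, h2⟩ := hab
  rw [S.symm δ a, S.symm δ b, S.symm b a]
  have h3 : 0 < B b b := by
    by_contra h
    push Not at h
    nlinarith [sq_nonneg (B a b), mul_nonneg h1.le (neg_nonneg.mpr h)]
  obtain ⟨A, hA⟩ : ∃ A, A = B a a := ⟨_, rfl⟩
  obtain ⟨C, hC⟩ : ∃ C, C = B b b := ⟨_, rfl⟩
  obtain ⟨X, hX⟩ : ∃ X, X = B a b := ⟨_, rfl⟩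
  obtain ⟨p, hp⟩ : ∃ p, p = B a δ := ⟨_, rfl⟩
  obtain ⟨q, hq⟩ : ∃ q, q = B b δ := ⟨_, rfl⟩
  rw [← hA, ← hC, ← hX, ← hp, ← hq]
  rw [← hA] at h1
  rw [← hA, ← hC, ← hX] at h2
  rw [← hC] at h3
  have e1 : (A + p * p) * (C + q * q) - (X + p * q) * (X + q * p) =
    (A * C - X ^ 2) + (A * q ^ 2 - 2 * X * p * q + C * p ^ 2) := by ring
  rw [e1]
  have e2 : 0 ≤ A * (A * q ^ 2 - 2 * X * p * q + C * p ^ 2) := by
    have : A * (A * q ^ 2 - 2 * X * p * q + C * p ^ 2) =
      (A * q - X * p) ^ 2 + (A * C - X ^ 2) * p ^ 2 := by ring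
    rw [this]
    have : 0 ≤ (A * C - X ^ 2) * p ^ 2 := mul_nonneg (by linarith) (sq_nonneg _)
    positivity
  have e3 : 0 ≤ A * q ^ 2 - 2 * X * p * q + C * p ^ 2 := nonneg_of_mul_nonneg_right e2 h1
  linarith

theorem Sit.rel_good (S : Sit B e f F D x₀ y₀ n k) {g : Λ ≃ₗ[ℤ] Λ} (hg : IsRel B e f F D g) :
    Good B e f F D g ∧ Ori B e f F D x₀ y₀ g := by
  obtain ⟨hG, G, hGs, hG0, hGG, a', b', c', d', hdet, hf, hGg⟩ := hg
  obtain ⟨c, y, rfl⟩ := (mem_span2 e f F D G).mp hGs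
  refine ⟨hG, ?_⟩
  have h0 : y * (n * c + k * y) = 0 := by
    rw [S.pr] at hGG
    simp only [q4] at hGG
    have : 2 * (y * (n * c + k * y)) = 0 := by linear_combination hGG
    omega
  -- pairings with f and G
  have hfa : ∀ a, B f a = a' * B f (g a) + b' * B (ph e f F D 0 c y 0) (g a) := by
    intro a
    rw [← hG.1 f a, hf]
    simp only [map_add, LinearMap.add_apply, map_smul, LinearMap.smul_apply, smul_eq_mul]
  have hGa : ∀ a, B (ph e f F D 0 c y 0) a =
      c' * B f (g a) + d' * B (ph e f F D 0 c y 0) (g a) := by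
    intro a
    rw [← hG.1 (ph e f F D 0 c y 0) a, hGg]
    simp only [map_add, LinearMap.add_apply, map_smul, LinearMap.smul_apply, smul_eq_mul]
  have hdet2 : ∀ a b, B f a * B (ph e f F D 0 c y 0) b - B f b * B (ph e f F D 0 c y 0) a =
      B f (g a) * B (ph e f F D 0 c y 0) (g b) - B f (g b) * B (ph e f F D 0 c y 0) (g a) := by
    intro a b
    rw [hfa a, hGa b, hfa b, hGa a]
    linear_combination (B f (g a) * B (ph e f F D 0 c y 0) (g b) -
      B f (g b) * B (ph e f F D 0 c y 0) (g a)) * hdet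
  have hGS : ∀ a, InS B e f F D x₀ y₀ a →
      B (ph e f F D 0 c y 0) a = c * (n * B y₀ a) + y * (n * B x₀ a + 2 * k * B y₀ a) := by
    intro a ha
    rw [ph_pr, S.F_S ha, S.D_S ha]; ring
  have hn := S.npos
  rcases mul_eq_zero.mp h0 with hy | hy
  · -- G is a multiple of F
    subst hy
    have hc : c ≠ 0 := by
      rintro rfl
      exact hG0 (by simp [ph])
    intro a b ha hb hab
    have h1 := hdet2 a b
    rw [hGS a ha, hGS b hb, hGS _ (S.good_inS hG ha), hGS _ (S.good_inS hG hb)] at h1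
    have h2 : Del B f y₀ (g a) (g b) = Del B f y₀ a b := by
      have h3 : (c * n) * (Del B f y₀ (g a) (g b) - Del B f y₀ a b) = 0 := by
        simp only [Del]
        linear_combination h1
      rcases mul_eq_zero.mp h3 with h4 | h4
      · rcases mul_eq_zero.mp h4 with h5 | h5
        · exact absurd h5 hc
        · omega
      · linarith
    have h5 := S.key ha hb ha hb hab hab
    have h6 : Del B f y₀ a b ≠ 0 := by
      intro h6
      rw [h6] at h5
      simp at h5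
    rw [h2]
    exact mul_self_pos.mpr h6
  · have hyne : y ≠ 0 := by
      rintro rfl
      have : n * c = 0 := by linarith
      rcases mul_eq_zero.mp this with h5 | h5
      · omega
      · exact hG0 (by simp [ph, h5])
    apply S.ori_of_det hG
    intro a b ha hb hab
    have h1 := hdet2 a b
    rw [hGS a ha, hGS b hb, hGS _ (S.good_inS hG ha), hGS _ (S.good_inS hG hb)] at h1
    have h2 : Del' B f x₀ y₀ n k (g a) (g b) = Del' B f x₀ y₀ n k a b := by
      have h3 : y * (Del' B f x₀ y₀ n k (g a) (g b) - Del' B f x₀ y₀ n k a b) = 0 := by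
        simp only [Del']
        linear_combination h1 + (-B f (g a) * B y₀ (g b) + B f (g b) * B y₀ (g a)
          + B f a * B y₀ b - B f b * B y₀ a) * (-1) * hy
      rcases mul_eq_zero.mp h3 with h4 | h4
      · exact absurd h4 hyne
      · linarith
    have h5 := S.key' (S.good_inS hG ha) (S.good_inS hG hb) ha hb (hG.pd hab) hab
    rw [h2] at h5
    have h7 : Del' B f x₀ y₀ n k a b ≠ 0 := by
      intro h6
      rw [h6] at h5
      simp at h5
    exact (mul_pos_iff_of_pos_left (mul_self_pos.mpr h7)).mp h5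

theorem Sit.gens_good (S : Sit B e f F D x₀ y₀ n k) {g : Λ ≃ₗ[ℤ] Λ}
    (hg : g ∈ gens B e f F D) : Good B e f F D g ∧ Ori B e f F D x₀ y₀ g := by
  rcases hg with h | h
  · exact S.refl_good h
  · exact S.rel_good h

theorem Sit.closure_good (S : Sit B e f F D x₀ y₀ n k) {g : Λ ≃ₗ[ℤ] Λ}
    (hg : g ∈ Subgroup.closure (gens B e f F D)) :
    Good B e f F D g ∧ Ori B e f F D x₀ y₀ g := by
  induction hg using Subgroup.closure_induction with
  | one =>
    refine ⟨Good.one, fun a b ha hb hab => ?_⟩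
    have h5 := S.key ha hb ha hb hab hab
    have h6 : Del B f y₀ a b ≠ 0 := by
      intro h6
      rw [h6] at h5
      simp at h5
    show 0 < Del B f y₀ a b * Del B f y₀ a b
    exact mul_self_pos.mpr h6
  | mul x y _ _ hx hy =>
    refine ⟨hx.1.mul hy.1, fun a b ha hb hab => ?_⟩
    rw [LinearEquiv.mul_apply, LinearEquiv.mul_apply]
    exact sign_trans (hx.2 _ _ (S.good_inS hy.1 ha) (S.good_inS hy.1 hb) (hy.1.pd hab))
      (hy.2 _ _ ha hb hab)
  | inv x _ hx =>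
    refine ⟨hx.1.inv, fun a b ha hb hab => ?_⟩
    have h1 : x (x⁻¹ a) = a := x.apply_symm_apply a
    have h2 : x (x⁻¹ b) = b := x.apply_symm_apply b
    have h3 := hx.2 _ _ (S.good_inS hx.1.inv ha) (S.good_inS hx.1.inv hb) (hx.1.inv.pd hab)
    rw [h1, h2] at h3
    linarith
  | mem x hx => exact S.gens_good hx

end

end Pool.Agent.K3Ell
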