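import Pool.Agent.K3Ell.Arith

/-!
The lattice `⟨e, f, F, D⟩` inside `Λ`: coordinates, isometries, orientation.
-/

set_option linter.unusedSimpArgs false

namespace Pool.Agent.K3Ell

variable {Λ : Type*} [AddCommGroup Λ]

/-- the situation -/
structure Sit (B : LinearMap.BilinForm ℤ Λ) (e f F D x₀ y₀ : Λ) (n k : ℤ) : Prop where
  symm : ∀ x y, B x y = B y x
  nondeg : ∀ x, (∀ y, B x y = 0) → x = 0
  ee : B e e = 0
  ff : B f f = 0
  ef : B e f = -1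
  eF : B e F = 0
  eD : B e D = 0
  fF : B f F = 0
  fD : B f D = 0
  FF : B F F = 0
  FD : B F D = n
  DD : B D D = 2 * k
  npos : 0 < n
  ex : B e x₀ = 0
  fx : B f x₀ = 0
  Fx : B F x₀ = 1
  Dx : B D x₀ = 0
  ey : B e y₀ = 0
  fy : B f y₀ = 0
  Fy : B F y₀ = 0
  Dy : B D y₀ = 1

/-- the orthogonal complement -/
def IsT (B : LinearMap.BilinForm ℤ Λ) (e f F D t : Λ) : Prop :=
  B e t = 0 ∧ B f t = 0 ∧ B F t = 0 ∧ B D t = 0

/-- isometries which are the identity on the orthogonal complement -/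
def Good (B : LinearMap.BilinForm ℤ Λ) (e f F D : Λ) (g : Λ ≃ₗ[ℤ] Λ) : Prop :=
  (∀ x y, B (g x) (g y) = B x y) ∧ (∀ t, IsT B e f F D t → g t = t)

/-- `r e + c F + y D + s f` -/
def ph (e f F D : Λ) (r c y s : ℤ) : Λ := r • e + c • F + y • D + s • f

section
variable {B : LinearMap.BilinForm ℤ Λ} {e f F D x₀ y₀ : Λ} {n k : ℤ}

theorem Good.mul {g h : Λ ≃ₗ[ℤ] Λ} (hg : Good B e f F D g) (hh : Good B e f F D h) :
    Good B e f F D (g * h) :=
  ⟨fun x y => by rw [LinearEquiv.mul_apply, LinearEquiv.mul_apply, hg.1, hh.1],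
   fun t ht => by rw [LinearEquiv.mul_apply, hh.2 t ht, hg.2 t ht]⟩

theorem Good.inv {g : Λ ≃ₗ[ℤ] Λ} (hg : Good B e f F D g) : Good B e f F D g⁻¹ := by
  refine ⟨fun x y => ?_, fun t ht => ?_⟩
  · have h1 : g (g⁻¹ x) = x := g.apply_symm_apply x
    have h2 : g (g⁻¹ y) = y := g.apply_symm_apply y
    rw [← hg.1, h1, h2]
  · have h1 : g (g⁻¹ t) = t := g.apply_symm_apply t
    apply g.injective
    rw [h1, hg.2 t ht]

theorem Good.one : Good B e f F D (1 : Λ ≃ₗ[ℤ] Λ) := ⟨fun _ _ => rfl, fun _ _ => rfl⟩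

/-- the coordinates -/
def cR (B : LinearMap.BilinForm ℤ Λ) (f v : Λ) : ℤ := -B f v
/-- `y₀`-coordinate -/
def cY (B : LinearMap.BilinForm ℤ Λ) (y₀ v : Λ) : ℤ := B y₀ v

/-- membership in the lattice spanned by `e, F, D, f` -/
def InS (B : LinearMap.BilinForm ℤ Λ) (e f F D x₀ y₀ : Λ) (v : Λ) : Prop :=
  v = ph e f F D (-B f v) (B x₀ v) (B y₀ v) (-B e v)

theorem Sit.fe (S : Sit B e f F D x₀ y₀ n k) : B f e = -1 := by rw [S.symm, S.ef]
theorem Sit.Fe (S : Sit B e f F D x₀ y₀ n k) : B F e = 0 := by rw [S.symm, S.eF]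
theorem Sit.De (S : Sit B e f F D x₀ y₀ n k) : B D e = 0 := by rw [S.symm, S.eD]
theorem Sit.Ff (S : Sit B e f F D x₀ y₀ n k) : B F f = 0 := by rw [S.symm, S.fF]
theorem Sit.Df (S : Sit B e f F D x₀ y₀ n k) : B D f = 0 := by rw [S.symm, S.fD]
theorem Sit.DF (S : Sit B e f F D x₀ y₀ n k) : B D F = n := by rw [S.symm, S.FD]
theorem Sit.xe (S : Sit B e f F D x₀ y₀ n k) : B x₀ e = 0 := by rw [S.symm, S.ex]
theorem Sit.xf (S : Sit B e f F D x₀ y₀ n k) : B x₀ f = 0 := by rw [S.symm, S.fx]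
theorem Sit.xF (S : Sit B e f F D x₀ y₀ n k) : B x₀ F = 1 := by rw [S.symm, S.Fx]
theorem Sit.xD (S : Sit B e f F D x₀ y₀ n k) : B x₀ D = 0 := by rw [S.symm, S.Dx]
theorem Sit.ye (S : Sit B e f F D x₀ y₀ n k) : B y₀ e = 0 := by rw [S.symm, S.ey]
theorem Sit.yf (S : Sit B e f F D x₀ y₀ n k) : B y₀ f = 0 := by rw [S.symm, S.fy]
theorem Sit.yF (S : Sit B e f F D x₀ y₀ n k) : B y₀ F = 0 := by rw [S.symm, S.Fy]
theorem Sit.yD (S : Sit B e f F D x₀ y₀ n k) : B y₀ D = 1 := by rw [S.symm, S.Dy]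

theorem Sit.e_ph (S : Sit B e f F D x₀ y₀ n k) (r c y s : ℤ) : B e (ph e f F D r c y s) = -s := by
  simp only [ph, map_add, map_smul, smul_eq_mul, S.ee, S.eF, S.eD, S.ef]; ring

theorem Sit.f_ph (S : Sit B e f F D x₀ y₀ n k) (r c y s : ℤ) : B f (ph e f F D r c y s) = -r := by
  simp only [ph, map_add, map_smul, smul_eq_mul, S.fe, S.fF, S.fD, S.ff]; ring

theorem Sit.F_ph (S : Sit B e f F D x₀ y₀ n k) (r c y s : ℤ) :
    B F (ph e f F D r c y s) = n * y := by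
  simp only [ph, map_add, map_smul, smul_eq_mul, S.Fe, S.FF, S.FD, S.Ff]; ring

theorem Sit.D_ph (S : Sit B e f F D x₀ y₀ n k) (r c y s : ℤ) :
    B D (ph e f F D r c y s) = n * c + 2 * k * y := by
  simp only [ph, map_add, map_smul, smul_eq_mul, S.De, S.DF, S.DD, S.Df]; ring

theorem Sit.x_ph (S : Sit B e f F D x₀ y₀ n k) (r c y s : ℤ) :
    B x₀ (ph e f F D r c y s) = c := by
  simp only [ph, map_add, map_smul, smul_eq_mul, S.xe, S.xF, S.xD, S.xf]; ring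

theorem Sit.y_ph (S : Sit B e f F D x₀ y₀ n k) (r c y s : ℤ) :
    B y₀ (ph e f F D r c y s) = y := by
  simp only [ph, map_add, map_smul, smul_eq_mul, S.ye, S.yF, S.yD, S.yf]; ring

theorem Sit.inS_ph (S : Sit B e f F D x₀ y₀ n k) (r c y s : ℤ) :
    InS B e f F D x₀ y₀ (ph e f F D r c y s) := by
  unfold InS
  rw [S.f_ph, S.x_ph, S.y_ph, S.e_ph, neg_neg, neg_neg]

theorem ph_pr (B : LinearMap.BilinForm ℤ Λ) (e f F D : Λ) (r c y s : ℤ) (v : Λ) :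
    B (ph e f F D r c y s) v = r * B e v + c * B F v + y * B D v + s * B f v := by
  simp only [ph, map_add, map_smul, smul_eq_mul, LinearMap.add_apply, LinearMap.smul_apply]

theorem Sit.pr (S : Sit B e f F D x₀ y₀ n k) (r c y s r' c' y' s' : ℤ) :
    B (ph e f F D r c y s) (ph e f F D r' c' y' s') =
      q4 r y (n * c + k * y) s r' y' (n * c' + k * y') s' := by
  rw [ph_pr, S.e_ph, S.F_ph, S.D_ph, S.f_ph]
  simp only [q4]; ring

theorem Sit.inS_of_T (S : Sit B e f F D x₀ y₀ n k) (v : Λ)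
    (hv : ∀ t, IsT B e f F D t → B v t = 0) : InS B e f F D x₀ y₀ v := by
  unfold InS
  rw [← sub_eq_zero]
  apply S.nondeg
  intro z
  have key := hv (z + B f z • e + B e z • f - B F z • x₀ - B D z • y₀) (by
    refine ⟨?_, ?_, ?_, ?_⟩
    · simp only [map_add, map_sub, map_smul, smul_eq_mul, S.ee, S.ef, S.ex, S.ey]; ring
    · simp only [map_add, map_sub, map_smul, smul_eq_mul, S.ff, S.fe, S.fx, S.fy]; ring
    · simp only [map_add, map_sub, map_smul, smul_eq_mul, S.Fe, S.Ff, S.Fx, S.Fy]; ring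
    · simp only [map_add, map_sub, map_smul, smul_eq_mul, S.De, S.Df, S.Dx, S.Dy]; ring)
  simp only [map_add, map_sub, map_smul, smul_eq_mul] at key
  rw [map_sub, LinearMap.sub_apply, ph_pr, S.symm x₀ v, S.symm y₀ v, S.symm f v, S.symm e v]
  linear_combination key

theorem Sit.inS_add (S : Sit B e f F D x₀ y₀ n k) {v w : Λ} (hv : InS B e f F D x₀ y₀ v)
    (hw : InS B e f F D x₀ y₀ w) : InS B e f F D x₀ y₀ (v + w) := by
  have : v + w = ph e f F D (-B f v + -B f w) (B x₀ v + B x₀ w) (B y₀ v + B y₀ w)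
      (-B e v + -B e w) := by
    conv_lhs => rw [hv, hw]
    simp only [ph, add_smul]; abel
  rw [this]
  exact S.inS_ph _ _ _ _

theorem Sit.good_sub (S : Sit B e f F D x₀ y₀ n k) {g : Λ ≃ₗ[ℤ] Λ} (hg : Good B e f F D g)
    (x : Λ) : InS B e f F D x₀ y₀ (g x - x) := by
  apply S.inS_of_T
  intro t ht
  rw [map_sub, LinearMap.sub_apply, ← hg.1 x t, hg.2 t ht, sub_self]

theorem Sit.good_inS (S : Sit B e f F D x₀ y₀ n k) {g : Λ ≃ₗ[ℤ] Λ} (hg : Good B e f F D g)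
    {v : Λ} (hv : InS B e f F D x₀ y₀ v) : InS B e f F D x₀ y₀ (g v) := by
  have h := S.inS_add hv (S.good_sub hg v)
  rwa [add_sub_cancel] at h

theorem Sit.good_F (S : Sit B e f F D x₀ y₀ n k) {g : Λ ≃ₗ[ℤ] Λ} (hg : Good B e f F D g) :
    ∃ r c y s, g F = F + n • ph e f F D r c y s := by
  have h := S.good_sub hg y₀
  have hT : IsT B e f F D (F - n • y₀) := by
    refine ⟨?_, ?_, ?_, ?_⟩
    · simp only [map_sub, map_smul, smul_eq_mul, S.eF, S.ey]; ring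
    · simp only [map_sub, map_smul, smul_eq_mul, S.fF, S.fy]; ring
    · simp only [map_sub, map_smul, smul_eq_mul, S.FF, S.Fy]; ring
    · simp only [map_sub, map_smul, smul_eq_mul, S.DF, S.Dy]; ring
  have h2 := hg.2 _ hT
  refine ⟨-B f (g y₀ - y₀), B x₀ (g y₀ - y₀), B y₀ (g y₀ - y₀), -B e (g y₀ - y₀), ?_⟩
  unfold InS at h
  rw [← h, smul_sub]
  rw [map_sub, map_smul, sub_eq_iff_eq_add] at h2
  rw [h2]; abel

/-- pairing of two elements of `S` -/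
theorem Sit.prS (S : Sit B e f F D x₀ y₀ n k) {v w : Λ} (hv : InS B e f F D x₀ y₀ v)
    (hw : InS B e f F D x₀ y₀ w) :
    B v w = q4 (-B f v) (B y₀ v) (n * B x₀ v + k * B y₀ v) (-B e v)
      (-B f w) (B y₀ w) (n * B x₀ w + k * B y₀ w) (-B e w) := by
  conv_lhs => rw [hv, hw]
  rw [S.pr]

/-- the orientation determinant -/
def Del (B : LinearMap.BilinForm ℤ Λ) (f y₀ a b : Λ) : ℤ := -B f a * B y₀ b - -B f b * B y₀ a

/-- positive pairs -/
def PDΛ (B : LinearMap.BilinForm ℤ Λ) (a b : Λ) : Prop :=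
  0 < B a a ∧ B a b ^ 2 < B a a * B b b

theorem Sit.key (S : Sit B e f F D x₀ y₀ n k) {a b a' b' : Λ}
    (ha : InS B e f F D x₀ y₀ a) (hb : InS B e f F D x₀ y₀ b)
    (ha' : InS B e f F D x₀ y₀ a') (hb' : InS B e f F D x₀ y₀ b')
    (h : PDΛ B a b) (h' : PDΛ B a' b') :
    0 < Del B f y₀ a b * Del B f y₀ a' b' * (B a a' * B b b' - B a b' * B b a') := by
  obtain ⟨h1, h2⟩ := h
  obtain ⟨h1', h2'⟩ := h'
  rw [S.prS ha ha] at h1 h2
  rw [S.prS ha hb, S.prS hb hb] at h2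
  rw [S.prS ha' ha'] at h1' h2'
  rw [S.prS ha' hb', S.prS hb' hb'] at h2'
  rw [S.prS ha ha', S.prS hb hb', S.prS ha hb', S.prS hb ha']
  exact K3Ell.key _ _ _ _ _ _ _ _ _ _ _ _ _ _ _ _ ⟨h1, h2⟩ ⟨h1', h2'⟩

/-- the second orientation determinant -/
def Del' (B : LinearMap.BilinForm ℤ Λ) (f x₀ y₀ : Λ) (n k : ℤ) (a b : Λ) : ℤ :=
  -B f a * (n * B x₀ b + k * B y₀ b) - -B f b * (n * B x₀ a + k * B y₀ a)

theorem Sit.key' (S : Sit B e f F D x₀ y₀ n k) {a b a' b' : Λ}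
    (ha : InS B e f F D x₀ y₀ a) (hb : InS B e f F D x₀ y₀ b)
    (ha' : InS B e f F D x₀ y₀ a') (hb' : InS B e f F D x₀ y₀ b')
    (h : PDΛ B a b) (h' : PDΛ B a' b') :
    0 < Del' B f x₀ y₀ n k a b * Del' B f x₀ y₀ n k a' b' *
      (B a a' * B b b' - B a b' * B b a') := by
  obtain ⟨h1, h2⟩ := h
  obtain ⟨h1', h2'⟩ := h'
  have sw : ∀ r y w s r' y' w' s' : ℤ, q4 r y w s r' y' w' s' = q4 r w y s r' w' y' s' := by
    intros; simp only [q4]; ring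
  rw [S.prS ha ha] at h1 h2
  rw [S.prS ha hb, S.prS hb hb] at h2
  rw [S.prS ha' ha'] at h1' h2'
  rw [S.prS ha' hb', S.prS hb' hb'] at h2'
  rw [S.prS ha ha', S.prS hb hb', S.prS ha hb', S.prS hb ha']
  simp only [sw _ (B y₀ _) _ _ _ _ _ _] at h1 h2 h1' h2' ⊢
  exact K3Ell.key _ _ _ _ _ _ _ _ _ _ _ _ _ _ _ _ ⟨h1, h2⟩ ⟨h1', h2'⟩

end

end Pool.Agent.K3Ell
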