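import Pool.Agent.K3Ell.Moves

/-!
Transitivity on isotropic planes and the main theorem.
-/

set_option linter.unusedSimpArgs false

namespace Pool.Agent.K3Ell

variable {Λ : Type*} [AddCommGroup Λ]

section
variable {B : LinearMap.BilinForm ℤ Λ} {e f F D x₀ y₀ : Λ} {n k : ℤ}

theorem Sit.exists_refl (S : Sit B e f F D x₀ y₀ n k) (r₀ c₀ z₀ s₀ : ℤ)
    (h : r₀ * s₀ - z₀ * (n * c₀ + k * z₀) = 1) :
    ∃ g ∈ Subgroup.closure (gens B e f F D), ∀ r c y s, ∃ l,
      l = y * (n * c₀ + k * z₀) + (n * c + k * y) * z₀ - r * s₀ - s * r₀ ∧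
      g (ph e f F D r c y s) = ph e f F D (r + l * r₀) (c + l * c₀) (y + l * z₀) (s + l * s₀) := by
  obtain ⟨δ, hδe⟩ : ∃ δ, δ = ph e f F D r₀ c₀ z₀ s₀ := ⟨_, rfl⟩
  have hδ' : B δ δ = -2 := by
    rw [hδe, S.pr]; simp only [q4]; linear_combination (-2) * h
  let T : Λ →ₗ[ℤ] Λ :=
    { toFun := fun x => x + B x δ • δ
      map_add' := fun x y => by
        simp only [map_add, LinearMap.add_apply, add_smul]; abel
      map_smul' := fun c x => by
        simp only [map_smul, LinearMap.smul_apply, smul_eq_mul, mul_smul, smul_add,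
          RingHom.id_apply] }
  have hT : ∀ x, T x = x + B x δ • δ := fun x => rfl
  have hTT : ∀ x, T (T x) = x := by
    intro x
    rw [hT (T x), hT x]
    simp only [map_add, LinearMap.add_apply, map_smul, LinearMap.smul_apply, smul_eq_mul, hδ',
      add_smul, mul_smul]
    have : (-2 : ℤ) • δ = - δ - δ := by
      rw [neg_smul, two_smul]; abel
    rw [this, smul_sub, smul_neg]
    abel
  let g : Λ ≃ₗ[ℤ] Λ := { T with invFun := T, left_inv := hTT, right_inv := hTT }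
  have hg : ∀ x, g x = x + B x δ • δ := fun x => rfl
  refine ⟨g, Subgroup.subset_closure (Or.inl ⟨δ, ?_, hδ', hg⟩), ?_⟩
  · exact (mem_span4 e f F D δ).mpr ⟨_, _, _, _, hδe⟩
  · intro r c y s
    refine ⟨_, rfl, ?_⟩
    rw [hg, hδe, S.pr]
    have h2 : ∀ m r c y s : ℤ, m • ph e f F D r c y s = ph e f F D (m * r) (m * c) (m * y)
      (m * s) := by
      intro m r c y s
      simp only [ph, smul_add, mul_smul]
    rw [h2, ph_add]
    simp only [q4]

/-- some element of the group maps `P_(a,b)` to `P_(a',b')` -/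
def Tr (B : LinearMap.BilinForm ℤ Λ) (e f F D : Λ) (n k : ℤ) (a b a' b' : ℤ) : Prop :=
  ∃ g ∈ Subgroup.closure (gens B e f F D), ∀ r c y s : ℤ, a * r + b * (n * c + k * y) = 0 →
    a * y + b * s = 0 → ∃ r' c' y' s' : ℤ, g (ph e f F D r c y s) = ph e f F D r' c' y' s' ∧
      a' * r' + b' * (n * c' + k * y') = 0 ∧ a' * y' + b' * s' = 0

theorem Tr.trans {a b a' b' a'' b'' : ℤ} (h : Tr B e f F D n k a b a' b')
    (h' : Tr B e f F D n k a' b' a'' b'') : Tr B e f F D n k a b a'' b'' := by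
  obtain ⟨g, hg, H⟩ := h
  obtain ⟨g', hg', H'⟩ := h'
  refine ⟨g' * g, Subgroup.mul_mem _ hg' hg, fun r c y s h1 h2 => ?_⟩
  obtain ⟨r1, c1, y1, s1, e1, h3, h4⟩ := H r c y s h1 h2
  obtain ⟨r2, c2, y2, s2, e2, h5, h6⟩ := H' r1 c1 y1 s1 h3 h4
  exact ⟨r2, c2, y2, s2, by rw [LinearEquiv.mul_apply, e1, e2], h5, h6⟩

theorem Sit.tr1 (S : Sit B e f F D x₀ y₀ n k) (a b p q : ℤ) :
    Tr B e f F D n k a b (a + (n * p + k * q) * b) b := by
  obtain ⟨g, hg, H⟩ := S.exists_tv p q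
  refine ⟨g, Subgroup.subset_closure (Or.inr hg), fun r c y s h1 h2 => ?_⟩
  refine ⟨_, _, _, _, H r c y s, ?_, ?_⟩
  · linear_combination h1
  · linear_combination h2 - q * h1

theorem Sit.exists_s (S : Sit B e f F D x₀ y₀ n k) :
    ∃ g ∈ Subgroup.closure (gens B e f F D), ∀ r c y s,
      g (ph e f F D r c y s) = ph e f F D (-s) c y (-r) := by
  obtain ⟨g, hg, H⟩ := S.exists_refl 1 0 0 1 (by ring)
  refine ⟨g, hg, fun r c y s => ?_⟩
  obtain ⟨l, hl, h⟩ := H r c y s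
  rw [h, hl]
  congr 1 <;> ring

theorem Sit.tr2 (S : Sit B e f F D x₀ y₀ n k) (a b q : ℤ) :
    Tr B e f F D n k a b a (b - q * a) := by
  obtain ⟨g, hg, H⟩ := S.exists_tv 0 q
  obtain ⟨w, hw, Hw⟩ := S.exists_s
  refine ⟨w * (g * w), Subgroup.mul_mem _ hw (Subgroup.mul_mem _
    (Subgroup.subset_closure (Or.inr hg)) hw), fun r c y s h1 h2 => ?_⟩
  have e1 : (w * (g * w)) (ph e f F D r c y s) = w (g (w (ph e f F D r c y s))) := rfl
  rw [Hw, H, Hw] at e1
  refine ⟨_, _, _, _, e1, ?_, ?_⟩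
  · linear_combination h1 + k * q * h2
  · linear_combination h2

theorem Sit.tr3 (S : Sit B e f F D x₀ y₀ n k) (a b r₀ c₀ s₀ : ℤ)
    (h : r₀ * s₀ - (n * c₀ + k) = 1) :
    Tr B e f F D n k a b (a * s₀ - b * (n * c₀ + k)) (-a + b * r₀) := by
  obtain ⟨g, hg, H⟩ := S.exists_refl r₀ c₀ 1 s₀ (by linear_combination h)
  obtain ⟨w, hw, Hw⟩ := S.exists_s
  refine ⟨g * w, Subgroup.mul_mem _ hg hw, fun r c y s h1 h2 => ?_⟩
  obtain ⟨l, hl, h3⟩ := H (-s) c y (-r)
  have e1 : (g * w) (ph e f F D r c y s) = g (w (ph e f F D r c y s)) := rfl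
  rw [Hw, h3] at e1
  refine ⟨_, _, _, _, e1, ?_, ?_⟩
  · linear_combination r₀ * h1 + (n * c₀ + k) * h2 + a * l * h + a * hl
  · linear_combination s₀ * h2 + h1 + b * l * h + b * hl

theorem Sit.tr4 (S : Sit B e f F D x₀ y₀ n k) (A' D' b c1 : ℤ)
    (rel : A' + D' + n * A' * D' - n * b * c1 = 0) :
    Tr B e f F D n k (1 + n * A') (n * b) 1 0 := by
  obtain ⟨g, hg, H⟩ := S.exists_hA A' D' b c1 rel
  refine ⟨g, Subgroup.subset_closure (Or.inr hg), fun r c y s h1 h2 => ?_⟩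
  obtain ⟨c', e1, e2⟩ := H r c y s
  refine ⟨_, _, _, _, e1, ?_, ?_⟩
  · linear_combination h1
  · linear_combination h2

/-- transitivity -/
theorem Sit.tr (S : Sit B e f F D x₀ y₀ n k) (a b : ℤ) (hab : IsCoprime a b)
    (h : ∃ u v w : ℤ, u * a + v * n + w * k = 1) : Tr B e f F D n k a b 1 0 := by
  have hn := S.npos
  obtain ⟨u, v, w, huvw⟩ := h
  -- the greatest common divisor of n and k
  obtain ⟨g0, hg0⟩ : ∃ g0 : ℤ, g0 = (Int.gcd n k : ℤ) := ⟨_, rfl⟩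
  have hg1 : g0 ∣ n := by rw [hg0]; exact Int.gcd_dvd_left ..
  have hg2 : g0 ∣ k := by rw [hg0]; exact Int.gcd_dvd_right ..
  obtain ⟨n1, hn1⟩ := hg1
  obtain ⟨k1, hk1⟩ := hg2
  have hbez : g0 = n * Int.gcdA n k + k * Int.gcdB n k := by
    rw [hg0]; exact Int.gcd_eq_gcd_ab n k
  have hag : IsCoprime a g0 := ⟨u, v * n1 + w * k1, by
    linear_combination huvw - v * hn1 - w * hk1⟩
  obtain ⟨t, ht⟩ := exists_coprime_add a (g0 * b) n (by omega) (hag.mul_right hab)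
  have T1 := S.tr1 a b (t * Int.gcdA n k) (t * Int.gcdB n k)
  have ha2 : a + (n * (t * Int.gcdA n k) + k * (t * Int.gcdB n k)) * b = a + t * (g0 * b) := by
    rw [hbez]; ring
  rw [ha2] at T1
  obtain ⟨a2, ha2e⟩ : ∃ a2, a2 = a + t * (g0 * b) := ⟨_, rfl⟩
  rw [← ha2e] at T1 ht
  have hab2 : IsCoprime a2 b := by
    rw [ha2e]
    have : a + t * (g0 * b) = a + b * (t * g0) := by ring
    rw [this]
    exact IsCoprime.add_mul_left_left hab _
  obtain ⟨s0, m0, hs0⟩ := ht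
  have T2 := S.tr2 a2 b (b * s0)
  have hb' : b - b * s0 * a2 = n * (b * m0) := by linear_combination (-b) * hs0
  have T3 := S.tr3 a2 (b - b * s0 * a2) ((1 + k) * a2) (-(1 + k) * m0) s0 (by
    linear_combination (1 + k) * hs0)
  obtain ⟨b', hb'e⟩ : ∃ b', b' = b * m0 := ⟨_, rfl⟩
  rw [← hb'e] at hb'
  rw [hb'] at T2 T3
  obtain ⟨w0, hw0⟩ : ∃ w0, w0 = n * (-(1 + k) * m0) + k := ⟨_, rfl⟩
  rw [← hw0] at T3
  have hdet : (1 + k) * a2 * s0 - w0 = 1 := by rw [hw0]; linear_combination (1 + k) * hs0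
  obtain ⟨A', hA'⟩ : ∃ A', A' = -m0 - b' * w0 := ⟨_, rfl⟩
  have ha3 : a2 * s0 - n * b' * w0 = 1 + n * A' := by rw [hA']; linear_combination hs0
  obtain ⟨b3, hb3⟩ : ∃ b3, b3 = -a2 + n * b' * ((1 + k) * a2) := ⟨_, rfl⟩
  rw [ha3, ← hb3] at T3
  have T4 := S.tr2 (1 + n * A') b3 b3
  have hb4 : b3 - b3 * (1 + n * A') = n * (-(A' * b3)) := by ring
  rw [hb4] at T4
  -- coprimality
  have c1 : IsCoprime a2 (n * b') := by
    rw [← hb']
    have : b - b * s0 * a2 = b + a2 * (-(b * s0)) := by ring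
    rw [this]
    exact IsCoprime.add_mul_left_right hab2 _
  have c2 : IsCoprime (1 + n * A') b3 := by
    obtain ⟨x, y, hxy⟩ := c1
    refine ⟨x * ((1 + k) * a2) + y, x * w0 + y * s0, ?_⟩
    have e1 : (1 + n * A') * ((1 + k) * a2) + b3 * w0 = a2 := by
      rw [← ha3, hb3]; linear_combination a2 * hdet
    have e2 : (1 + n * A') + b3 * s0 = n * b' := by
      rw [← ha3, hb3]; linear_combination (n * b') * hdet
    linear_combination x * e1 + y * e2 + hxy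
  have c3 : IsCoprime (1 + n * A') A' := ⟨1, -n, by ring⟩
  have c4 : IsCoprime (1 + n * A') n := ⟨1, -A', by ring⟩
  have c5 : IsCoprime (1 + n * A') (n * n * (A' * b3)) :=
    (c4.mul_right c4).mul_right (c3.mul_right c2)
  obtain ⟨x, y, hxy⟩ := c5
  have T5 := S.tr4 A' (-(x * A') + y * n * -(A' * b3)) (-(A' * b3)) y (by
    linear_combination (-A') * hxy)
  exact T1.trans (T2.trans (T3.trans (T4.trans T5)))

end

end Pool.Agent.K3Ell
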