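import Pool.Agent.K3Ell.Gens

/-!
Explicit elements of the group generated by `gens` and their action on isotropic planes.
-/

set_option linter.unusedSimpArgs false

namespace Pool.Agent.K3Ell

variable {Λ : Type*} [AddCommGroup Λ]

/-- `x ↦ x + r(x) e + c(x) F + y(x) D + s(x) f` -/
def TT (e f F D : Λ) (Lr Lc Ly Ls : Λ →ₗ[ℤ] ℤ) : Λ →ₗ[ℤ] Λ :=
  LinearMap.id + (Lr.smulRight e + Lc.smulRight F + Ly.smulRight D + Ls.smulRight f)

theorem TT_apply (e f F D : Λ) (Lr Lc Ly Ls : Λ →ₗ[ℤ] ℤ) (x : Λ) :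
    TT e f F D Lr Lc Ly Ls x = x + ph e f F D (Lr x) (Lc x) (Ly x) (Ls x) := by
  simp only [TT, LinearMap.add_apply, LinearMap.id_apply, LinearMap.smulRight_apply, ph]

theorem ph_add (e f F D : Λ) (r c y s r' c' y' s' : ℤ) :
    ph e f F D r c y s + ph e f F D r' c' y' s' =
      ph e f F D (r + r') (c + c') (y + y') (s + s') := by
  simp only [ph, add_smul]; abel

theorem ph_zero (e f F D : Λ) : ph e f F D 0 0 0 0 = 0 := by simp [ph]

theorem TT_TT (e f F D : Λ) (Lr Lc Ly Ls Lr' Lc' Ly' Ls' : Λ →ₗ[ℤ] ℤ) (x : Λ)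
    (h1 : Lr' x + Lr (TT e f F D Lr' Lc' Ly' Ls' x) = 0)
    (h2 : Lc' x + Lc (TT e f F D Lr' Lc' Ly' Ls' x) = 0)
    (h3 : Ly' x + Ly (TT e f F D Lr' Lc' Ly' Ls' x) = 0)
    (h4 : Ls' x + Ls (TT e f F D Lr' Lc' Ly' Ls' x) = 0) :
    TT e f F D Lr Lc Ly Ls (TT e f F D Lr' Lc' Ly' Ls' x) = x := by
  rw [TT_apply e f F D Lr Lc Ly Ls]
  conv_lhs => arg 1; rw [TT_apply]
  rw [add_assoc, ph_add, h1, h2, h3, h4, ph_zero, add_zero]

section
variable {B : LinearMap.BilinForm ℤ Λ} {e f F D x₀ y₀ : Λ} {n k : ℤ}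

theorem Sit.e_TT (S : Sit B e f F D x₀ y₀ n k) (Lr Lc Ly Ls : Λ →ₗ[ℤ] ℤ) (x : Λ) :
    B e (TT e f F D Lr Lc Ly Ls x) = B e x - Ls x := by
  rw [TT_apply, map_add, S.e_ph]; ring

theorem Sit.f_TT (S : Sit B e f F D x₀ y₀ n k) (Lr Lc Ly Ls : Λ →ₗ[ℤ] ℤ) (x : Λ) :
    B f (TT e f F D Lr Lc Ly Ls x) = B f x - Lr x := by
  rw [TT_apply, map_add, S.f_ph]; ring

theorem Sit.F_TT (S : Sit B e f F D x₀ y₀ n k) (Lr Lc Ly Ls : Λ →ₗ[ℤ] ℤ) (x : Λ) :
    B F (TT e f F D Lr Lc Ly Ls x) = B F x + n * Ly x := by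
  rw [TT_apply, map_add, S.F_ph]

theorem Sit.D_TT (S : Sit B e f F D x₀ y₀ n k) (Lr Lc Ly Ls : Λ →ₗ[ℤ] ℤ) (x : Λ) :
    B D (TT e f F D Lr Lc Ly Ls x) = B D x + (n * Lc x + 2 * k * Ly x) := by
  rw [TT_apply, map_add, S.D_ph]

/-- isometry test -/
theorem Sit.TT_isom (S : Sit B e f F D x₀ y₀ n k) (Lr Lc Ly Ls : Λ →ₗ[ℤ] ℤ) (x z : Λ)
    (h : Lr z * B e x + Lc z * B F x + Ly z * B D x + Ls z * B f x +
      (Lr x * B e z + Lc x * B F z + Ly x * B D z + Ls x * B f z) +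
      q4 (Lr x) (Ly x) (n * Lc x + k * Ly x) (Ls x) (Lr z) (Ly z) (n * Lc z + k * Ly z) (Ls z)
        = 0) :
    B (TT e f F D Lr Lc Ly Ls x) (TT e f F D Lr Lc Ly Ls z) = B x z := by
  rw [TT_apply, TT_apply, map_add, map_add, LinearMap.add_apply, LinearMap.add_apply, S.pr,
    S.symm x (ph e f F D _ _ _ _), ph_pr, ph_pr]
  linear_combination h

/-- the transvection `E(f, p F + q D)` -/
theorem Sit.exists_tv (S : Sit B e f F D x₀ y₀ n k) (p q : ℤ) :
    ∃ g : Λ ≃ₗ[ℤ] Λ, IsRel B e f F D g ∧ ∀ r c y s,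
      g (ph e f F D r c y s) = ph e f F D r (c - r * p) (y - r * q)
        (s - (n * (p * y + q * c) + 2 * k * q * y) + q * (n * p + k * q) * r) := by
  let L : ℤ → ℤ → (Λ →ₗ[ℤ] ℤ) × (Λ →ₗ[ℤ] ℤ) × (Λ →ₗ[ℤ] ℤ) × (Λ →ₗ[ℤ] ℤ) := fun p q =>
    (0, p • B f, q • B f, -(p • B F) - q • B D - (q * (n * p + k * q)) • B f)
  have hr : ∀ p q x, (L p q).1 x = 0 := fun p q x => rfl
  have hc : ∀ p q x, (L p q).2.1 x = p * B f x := fun p q x => rfl
  have hy : ∀ p q x, (L p q).2.2.1 x = q * B f x := fun p q x => rfl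
  have hs : ∀ p q x, (L p q).2.2.2 x =
      -(p * B F x) - q * B D x - (q * (n * p + k * q)) * B f x := fun p q x => rfl
  let T : ℤ → ℤ → Λ →ₗ[ℤ] Λ := fun p q =>
    TT e f F D (L p q).1 (L p q).2.1 (L p q).2.2.1 (L p q).2.2.2
  have hT : ∀ p q, T p q = TT e f F D (L p q).1 (L p q).2.1 (L p q).2.2.1 (L p q).2.2.2 :=
    fun p q => rfl
  have inv : ∀ p q x, T p q (T (-p) (-q) x) = x := by
    intro p q x
    rw [hT, hT]
    apply TT_TT
    · rw [hr p q, hr (-p) (-q)]; ring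
    · rw [hc p q, hc (-p) (-q), S.f_TT, hr (-p) (-q)]; ring
    · rw [hy p q, hy (-p) (-q), S.f_TT, hr (-p) (-q)]; ring
    · rw [hs p q, hs (-p) (-q), S.f_TT, S.F_TT, S.D_TT, hr (-p) (-q), hc (-p) (-q),
        hy (-p) (-q)]; ring
  have inv' : ∀ x, T (-p) (-q) (T p q x) = x := by
    intro x
    have := inv (-p) (-q) x
    rwa [neg_neg, neg_neg] at this
  let g : Λ ≃ₗ[ℤ] Λ := { T p q with invFun := T (-p) (-q), left_inv := inv', right_inv := inv p q }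
  have hg : ∀ x, g x = T p q x := fun x => rfl
  have hgx : ∀ x, g x = x + ph e f F D 0 (p * B f x) (q * B f x)
      (-(p * B F x) - q * B D x - (q * (n * p + k * q)) * B f x) := by
    intro x
    rw [hg, hT, TT_apply, hr, hc, hy, hs]
  refine ⟨g, ⟨⟨fun x z => ?_, fun t ht => ?_⟩, F, Submodule.subset_span (by simp), ?_, S.FF,
    1, 0, -(n * q), 1, by ring, ?_, ?_⟩, ?_⟩
  · rw [hg, hg, hT]
    apply S.TT_isom
    rw [hr p q x, hr p q z, hc p q x, hc p q z, hy p q x, hy p q z, hs p q x, hs p q z]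
    simp only [q4]
    ring
  · rw [hgx, ht.2.1, ht.2.2.1, ht.2.2.2]
    simp [ph]
  · rintro rfl
    have := S.Fx
    simp at this
  · rw [hgx, S.ff, S.Ff, S.Df]
    simp [ph]
  · rw [hgx, S.fF, S.FF, S.DF]
    simp only [ph, mul_zero, zero_smul, add_zero, zero_add]
    have : (-0 - q * n - 0 : ℤ) = -(n * q) := by ring
    rw [this, one_smul]; abel
  · intro r c y s
    rw [hgx, S.f_ph, S.F_ph, S.D_ph, ph_add]
    congr 1 <;> ring

/-- left multiplication by a matrix congruent to `1` modulo `n` -/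
theorem Sit.exists_hA (S : Sit B e f F D x₀ y₀ n k) (A' D' b c1 : ℤ)
    (rel : A' + D' + n * A' * D' - n * b * c1 = 0) :
    ∃ g : Λ ≃ₗ[ℤ] Λ, IsRel B e f F D g ∧ ∀ r c y s, ∃ c',
      g (ph e f F D r c y s) = ph e f F D (r + n * A' * r + n * b * (n * c + k * y)) c'
        (y + n * A' * y + n * b * s) (s + n * c1 * y + n * D' * s) ∧
      n * c' + k * (y + n * A' * y + n * b * s) =
        (n * c + k * y) + n * c1 * r + n * D' * (n * c + k * y) := by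
  let L : ℤ → ℤ → ℤ → ℤ → (Λ →ₗ[ℤ] ℤ) × (Λ →ₗ[ℤ] ℤ) × (Λ →ₗ[ℤ] ℤ) × (Λ →ₗ[ℤ] ℤ) :=
    fun A' D' b c1 =>
    (-((n * A') • B f) + (n * b) • B D - (k * b) • B F,
     -(c1 • B f) + D' • B D - (k * (b * c1 - A' * D')) • B F + (k * b) • B e,
     A' • B F - (n * b) • B e,
     c1 • B F - (n * D') • B e)
  have hr : ∀ A' D' b c1 x, (L A' D' b c1).1 x =
      -(n * A' * B f x) + n * b * B D x - k * b * B F x := fun A' D' b c1 x => rfl
  have hc : ∀ A' D' b c1 x, (L A' D' b c1).2.1 x =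
      -(c1 * B f x) + D' * B D x - k * (b * c1 - A' * D') * B F x + k * b * B e x :=
    fun A' D' b c1 x => rfl
  have hy : ∀ A' D' b c1 x, (L A' D' b c1).2.2.1 x = A' * B F x - n * b * B e x :=
    fun A' D' b c1 x => rfl
  have hs : ∀ A' D' b c1 x, (L A' D' b c1).2.2.2 x = c1 * B F x - n * D' * B e x :=
    fun A' D' b c1 x => rfl
  let T : ℤ → ℤ → ℤ → ℤ → Λ →ₗ[ℤ] Λ := fun A' D' b c1 =>
    TT e f F D (L A' D' b c1).1 (L A' D' b c1).2.1 (L A' D' b c1).2.2.1 (L A' D' b c1).2.2.2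
  have hT : ∀ A' D' b c1, T A' D' b c1 =
    TT e f F D (L A' D' b c1).1 (L A' D' b c1).2.1 (L A' D' b c1).2.2.1 (L A' D' b c1).2.2.2 :=
    fun _ _ _ _ => rfl
  have inv : ∀ A' D' b c1, A' + D' + n * A' * D' - n * b * c1 = 0 →
      ∀ x, T A' D' b c1 (T D' A' (-b) (-c1) x) = x := by
    intro A' D' b c1 rel x
    rw [hT, hT]
    apply TT_TT
    · rw [hr, hr, S.f_TT, S.F_TT, S.D_TT, hr, hc, hy]
      linear_combination (-n * B f x + n * b * k * B F x) * rel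
    · rw [hc, hc, S.e_TT, S.f_TT, S.F_TT, S.D_TT, hr, hc, hy, hs]
      linear_combination (B D x + 2 * k * D' * B F x + k * n * b * B e x) * rel
    · rw [hy, hy, S.e_TT, S.F_TT, hy, hs]
      linear_combination (B F x) * rel
    · rw [hs, hs, S.e_TT, S.F_TT, hy, hs]
      linear_combination (-n * B e x) * rel
  have inv' : ∀ x, T D' A' (-b) (-c1) (T A' D' b c1 x) = x := by
    intro x
    have := inv D' A' (-b) (-c1) (by linear_combination rel) x
    rwa [neg_neg, neg_neg] at this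
  let g : Λ ≃ₗ[ℤ] Λ := { T A' D' b c1 with
    invFun := T D' A' (-b) (-c1), left_inv := inv', right_inv := inv A' D' b c1 rel }
  have hg : ∀ x, g x = T A' D' b c1 x := fun x => rfl
  have hgx : ∀ x, g x = x + ph e f F D (-(n * A' * B f x) + n * b * B D x - k * b * B F x)
      (-(c1 * B f x) + D' * B D x - k * (b * c1 - A' * D') * B F x + k * b * B e x)
      (A' * B F x - n * b * B e x) (c1 * B F x - n * D' * B e x) := by
    intro x
    rw [hg, hT, TT_apply, hr, hc, hy, hs]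
  refine ⟨g, ⟨⟨fun x z => ?_, fun t ht => ?_⟩, ph e f F D 0 (-k) n 0, ?_, ?_, ?_,
    1 + n * D', b, n * n * c1, 1 + n * A', ?_, ?_, ?_⟩, ?_⟩
  · rw [hg, hg, hT]
    apply S.TT_isom
    rw [hr _ _ _ _ x, hr _ _ _ _ z, hc _ _ _ _ x, hc _ _ _ _ z, hy _ _ _ _ x, hy _ _ _ _ z,
      hs _ _ _ _ x, hs _ _ _ _ z]
    simp only [q4]
    linear_combination (-n * (B f x * B e z + B e x * B f z) + B F x * B D z + B D x * B F z
      + 2 * k * A' * B F x * B F z - n * k * b * (B F x * B e z + B e x * B F z)) * rel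
  · rw [hgx, ht.1, ht.2.1, ht.2.2.1, ht.2.2.2]
    simp [ph]
  · exact (mem_span2 e f F D _).mpr ⟨_, _, rfl⟩
  · intro h0
    have h1 := S.y_ph 0 (-k) n 0
    rw [h0, map_zero] at h1
    have := S.npos
    omega
  · rw [S.pr]; simp only [q4]; ring
  · linear_combination n * rel
  · rw [hgx, S.ff, S.Df, S.Ff, S.ef]
    have h1 : f = ph e f F D 0 0 0 1 := by simp [ph]
    have h2 : ∀ m r c y s : ℤ, m • ph e f F D r c y s = ph e f F D (m * r) (m * c) (m * y)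
      (m * s) := by
      intro m r c y s
      simp only [ph, smul_add, mul_smul]
    conv_lhs => arg 1; rw [h1]
    conv_rhs => arg 1; arg 2; rw [h1]
    rw [h2, h2, ph_add, ph_add]
    congr 1 <;> ring
  · rw [hgx, S.f_ph, S.D_ph, S.F_ph, S.e_ph]
    have h1 : f = ph e f F D 0 0 0 1 := by simp [ph]
    have h2 : ∀ m r c y s : ℤ, m • ph e f F D r c y s = ph e f F D (m * r) (m * c) (m * y)
      (m * s) := by
      intro m r c y s
      simp only [ph, smul_add, mul_smul]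
    conv_rhs => arg 1; arg 2; rw [h1]
    rw [h2, h2, ph_add, ph_add]
    congr 1
    · ring
    · linear_combination (k * n) * rel
    · ring
    · ring
  · intro r c y s
    refine ⟨c + (c1 * r + D' * (n * c + 2 * k * y) - k * (b * c1 - A' * D') * (n * y) -
      k * b * s), ?_, ?_⟩
    · rw [hgx, S.f_ph, S.F_ph, S.D_ph, S.e_ph, ph_add]
      congr 1 <;> ring
    · linear_combination (k * n * y) * rel

end

end Pool.Agent.K3Ell
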